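import Pool.Agent.TH829.Kim.Alg2
import Mathlib.RingTheory.GradedAlgebra.Basic
import Mathlib.Algebra.DirectSum.Internal

/-!
# Graded algebras with a trace: even and odd idempotents can be moved into degree zero
-/

namespace Pool.Agent.N174.KN

open Pool.Agent.TH829.Kim

variable {R : Type*} [Ring R] [Algebra ℚ R] {tr : R →ₗ[ℚ] ℚ}

/-! ### Transport of the conditions under automorphisms -/

lemma K_map {φ : R →ₐ[ℚ] R} (hφ : ∀ a, tr (φ a) = tr a) (η : ℚ) (n : ℕ) (a : Fin (n + 1) → R) :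
    K tr η n (fun i => φ (a i)) = φ (K tr η n a) := by
  induction n with
  | zero => rfl
  | succ n ih =>
    rw [K_succ, K_succ, map_add, map_smul, map_smul, map_sum, hφ, ih]
    congr 2
    apply Finset.sum_congr rfl
    intro i _
    rw [← ih]
    congr 1
    funext j
    by_cases hj : j = i
    · subst hj
      rw [Function.update_self, Function.update_self, map_mul]
    · rw [Function.update_of_ne hj, Function.update_of_ne hj]

lemma F_map {φ : R →ₐ[ℚ] R} (hφ : ∀ a, tr (φ a) = tr a) (η : ℚ) (n : ℕ) (a : Fin n → R) :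
    F tr η n (fun i => φ (a i)) = F tr η n a := by
  induction n with
  | zero => rfl
  | succ n ih =>
    rw [F_succ, F_succ, hφ, ih]
    congr 2
    apply Finset.sum_congr rfl
    intro i _
    rw [← ih (Function.update (fun i => a i.succ) i (a 0 * a i.succ))]
    congr 1
    funext j
    by_cases hj : j = i
    · subst hj
      rw [Function.update_self, Function.update_self, map_mul]
    · rw [Function.update_of_ne hj, Function.update_of_ne hj]

lemma Killed.map {φ ψ : R →ₐ[ℚ] R} (hφ : ∀ a, tr (φ a) = tr a) (h1 : ∀ a, φ (ψ a) = a)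
    (h2 : ∀ a, ψ (φ a) = a) {η : ℚ} {e : R} {n : ℕ} (h : Killed tr η e n) :
    Killed tr η (φ e) n := by
  have key : ∀ a : Fin (n + 1) → R, (∀ i, φ e * a i = a i) → ∀ i, e * ψ (a i) = ψ (a i) := by
    intro a ha i
    rw [← h2 e, ← map_mul, ha]
  have hfun : ∀ a : Fin (n + 1) → R, a = fun i => φ (ψ (a i)) := fun a => by
    funext i
    rw [h1]
  constructor
  · intro a ha
    rw [hfun a, K_map hφ, h.K_eq _ (key a ha), map_zero]
  · intro a ha
    rw [hfun a, F_map hφ, h.F_eq _ (key a ha)]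

/-! ### Graded algebras -/

variable (𝒢 : ℤ → Submodule ℚ R) [GradedAlgebra 𝒢]

/-- The automorphism multiplying the component of degree `r` by `c ^ r`. -/
noncomputable def scale (c : ℚ) (hc : c ≠ 0) : R →ₐ[ℚ] R :=
  (DirectSum.toAlgebra ℚ (fun i => 𝒢 i) (fun r => (c ^ r) • (𝒢 r).subtype)
    (by
      rw [LinearMap.smul_apply, zpow_zero, one_smul]
      rfl)
    (fun {i j} a b => by
      rw [LinearMap.smul_apply, LinearMap.smul_apply, LinearMap.smul_apply, smul_mul_smul_comm,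
        ← zpow_add₀ hc]
      rfl)).comp (DirectSum.decomposeAlgEquiv 𝒢).toAlgHom

variable {𝒢}

lemma scale_of_mem {c : ℚ} {hc : c ≠ 0} {r : ℤ} {a : R} (ha : a ∈ 𝒢 r) :
    scale 𝒢 c hc a = c ^ r • a := by
  rw [scale, AlgHom.comp_apply]
  change DirectSum.toAlgebra ℚ (fun i => 𝒢 i) (fun r => (c ^ r) • (𝒢 r).subtype) _ _
    (DirectSum.decompose 𝒢 a) = _
  rw [DirectSum.decompose_of_mem 𝒢 ha, DirectSum.toAlgebra_apply, DirectSum.toSemiring_of]
  rfl

lemma hom_induction {p : R → Prop} (h : ∀ r, ∀ a ∈ 𝒢 r, p a) (h0 : p 0)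
    (hadd : ∀ a b, p a → p b → p (a + b)) (a : R) : p a := by
  refine DirectSum.Decomposition.inductionOn 𝒢 h0 (fun {i} m => h i _ m.2) hadd a

lemma scale_scale {c d : ℚ} {hc : c ≠ 0} {hd : d ≠ 0} (hcd : c * d = 1) (a : R) :
    scale 𝒢 c hc (scale 𝒢 d hd a) = a := by
  refine hom_induction (𝒢 := 𝒢) (p := fun a => scale 𝒢 c hc (scale 𝒢 d hd a) = a) ?_ ?_ ?_ a
  · intro r a ha
    rw [scale_of_mem ha, map_smul, scale_of_mem ha, smul_smul, ← mul_zpow, mul_comm d c, hcd,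
      one_zpow, one_smul]
  · rw [map_zero, map_zero]
  · intro a b h1 h2
    rw [map_add, map_add, h1, h2]

lemma tr_scale (htr : ∀ r ≠ 0, ∀ a ∈ 𝒢 r, tr a = 0) {c : ℚ} {hc : c ≠ 0} (a : R) :
    tr (scale 𝒢 c hc a) = tr a := by
  refine hom_induction (𝒢 := 𝒢) (p := fun a => tr (scale 𝒢 c hc a) = tr a) ?_ ?_ ?_ a
  · intro r a ha
    rw [scale_of_mem ha, map_smul]
    by_cases hr : r = 0
    · rw [hr, zpow_zero, one_smul]
    · rw [htr r hr a ha, smul_zero]
  · rw [map_zero]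
  · intro a b h1 h2
    rw [map_add, map_add, map_add, h1, h2]

/-- The component of degree `r`. -/
noncomputable def cp (𝒢 : ℤ → Submodule ℚ R) [GradedAlgebra 𝒢] (r : ℤ) : R →ₗ[ℚ] R :=
  GradedAlgebra.proj 𝒢 r

lemma cp_mem (r : ℤ) (a : R) : cp 𝒢 r a ∈ 𝒢 r := (DirectSum.decompose 𝒢 a r).2

lemma cp_same {r : ℤ} {a : R} (ha : a ∈ 𝒢 r) : cp 𝒢 r a = a :=
  DirectSum.decompose_of_mem_same 𝒢 ha

lemma cp_ne {r s : ℤ} {a : R} (ha : a ∈ 𝒢 r) (h : r ≠ s) : cp 𝒢 s a = 0 :=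
  DirectSum.decompose_of_mem_ne 𝒢 ha h

lemma exists_sum_cp (a : R) : ∃ T : Finset ℤ, 0 ∈ T ∧ a = ∑ r ∈ T, cp 𝒢 r a := by
  classical
  refine ⟨insert 0 (DirectSum.decompose 𝒢 a).support, Finset.mem_insert_self _ _, ?_⟩
  rw [← Finset.sum_subset (Finset.subset_insert 0 (DirectSum.decompose 𝒢 a).support)]
  · exact (DirectSum.sum_support_decompose 𝒢 a).symm
  · intro r _ hr
    rw [DFinsupp.notMem_support_iff] at hr
    change ((DirectSum.decompose 𝒢 a r : 𝒢 r) : R) = 0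
    rw [hr]
    rfl

lemma cp_scale {c : ℚ} {hc : c ≠ 0} (r : ℤ) (a : R) :
    cp 𝒢 r (scale 𝒢 c hc a) = c ^ r • cp 𝒢 r a := by
  refine hom_induction (𝒢 := 𝒢) (p := fun a => cp 𝒢 r (scale 𝒢 c hc a) = c ^ r • cp 𝒢 r a)
    ?_ ?_ ?_ a
  · intro s a ha
    rw [scale_of_mem ha, map_smul]
    by_cases hs : s = r
    · rw [hs]
    · rw [cp_ne ha hs, smul_zero, smul_zero]
  · rw [map_zero, map_zero, smul_zero]
  · intro a b h1 h2
    rw [map_add, map_add, map_add, smul_add, h1, h2]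

lemma tr_mul_cp (htr : ∀ r ≠ 0, ∀ a ∈ 𝒢 r, tr a = 0) (r : ℤ) (a : R) {γ : R} (hγ : γ ∈ 𝒢 (-r)) :
    tr (a * γ) = tr (cp 𝒢 r a * γ) := by
  refine hom_induction (𝒢 := 𝒢) (p := fun a => tr (a * γ) = tr (cp 𝒢 r a * γ)) ?_ ?_ ?_ a
  · intro s a ha
    by_cases hs : s = r
    · subst hs
      rw [cp_same ha]
    · rw [cp_ne ha hs, zero_mul, map_zero]
      exact htr (s + -r) (by omega) _ (SetLike.mul_mem_graded ha hγ)
  · rw [map_zero]
  · intro a b h1 h2
    rw [map_add, add_mul, add_mul, map_add, map_add, h1, h2]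

/-- The radical is graded. -/
lemma inRad_cp (htr : ∀ r ≠ 0, ∀ a ∈ 𝒢 r, tr a = 0) {a : R} (ha : InRad tr a) (r : ℤ) :
    InRad tr (cp 𝒢 r a) := by
  intro γ
  refine hom_induction (𝒢 := 𝒢) (p := fun γ => tr (cp 𝒢 r a * γ) = 0) ?_ ?_ ?_ γ
  · intro s γ hγ
    by_cases hs : s = -r
    · subst hs
      rw [← tr_mul_cp htr r a hγ, ha]
    · exact htr (r + s) (by omega) _ (SetLike.mul_mem_graded (cp_mem r a) hγ)
  · rw [mul_zero, map_zero]
  · intro a b h1 h2
    rw [mul_add, map_add, h1, h2, add_zero]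

lemma InRad.smul {a : R} (ha : InRad tr a) (q : ℚ) : InRad tr (q • a) := fun γ => by
  rw [smul_mul_assoc, map_smul, ha, smul_zero]

lemma InRad.sum {ι : Type*} (T : Finset ι) {a : ι → R} (ha : ∀ i ∈ T, InRad tr (a i)) :
    InRad tr (∑ i ∈ T, a i) := fun γ => by
  rw [Finset.sum_mul, map_sum]
  exact Finset.sum_eq_zero fun i hi => ha i hi γ

/-- The lifting of idempotents by polynomials. -/
lemma exists_lift_poly {e : R} (he : IsNilpotent (e * e - e)) : ∃ (φ : Polynomial ℚ) (c : R),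
    Polynomial.aeval e φ * Polynomial.aeval e φ = Polynomial.aeval e φ ∧
    Polynomial.aeval e φ - e = (e * e - e) * c := by
  obtain ⟨N, hN⟩ := he
  obtain ⟨φ, ⟨r, hr⟩, ⟨s, hs⟩⟩ := exists_poly N
  refine ⟨φ, Polynomial.aeval e s, ?_, ?_⟩
  · have h1 := congrArg (Polynomial.aeval e) hr
    rw [map_sub, map_pow, map_mul, map_pow, map_sub, map_pow, Polynomial.aeval_X, sq e,
      pow_eq_zero_of_le (Nat.le_succ N) hN, zero_mul, sub_eq_zero, sq] at h1
    exact h1
  · have h1 := congrArg (Polynomial.aeval e) hs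
    rw [map_sub, map_mul, map_sub, map_pow, Polynomial.aeval_X, sq] at h1
    exact h1

/-- **An idempotent such that it is even and its complement is odd is conjugate to an idempotent of
degree zero.** -/
theorem exists_degree_zero (hsym : ∀ a b, tr (a * b) = tr (b * a))
    (htr : ∀ r ≠ 0, ∀ a ∈ 𝒢 r, tr a = 0) {e : R} (he : e * e = e) {n m : ℕ}
    (hE : Killed tr (-1) e n) (hO : Killed tr 1 (1 - e) m) :
    ∃ e' ∈ 𝒢 0, e' * e' = e' ∧ ∃ u v : R, u * v = 1 ∧ v * u = 1 ∧ e' = u * e * v := by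
  have h2 : (2 : ℚ) ≠ 0 := two_ne_zero
  have h2' : (2⁻¹ : ℚ) ≠ 0 := inv_ne_zero h2
  set φ := scale 𝒢 2 h2 with hφ
  set ψ := scale 𝒢 2⁻¹ h2' with hψ
  have h3 : ∀ a, φ (ψ a) = a := fun a => scale_scale (mul_inv_cancel₀ h2) a
  have h4 : ∀ a, ψ (φ a) = a := fun a => scale_scale (inv_mul_cancel₀ h2) a
  have hφt : ∀ a, tr (φ a) = tr a := fun a => tr_scale htr a
  have hφe : φ e * φ e = φ e := by rw [← map_mul, he]
  have hE' : Killed tr (-1) (φ e) n := Killed.map hφt h3 h4 hE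
  have hO' : Killed tr 1 (1 - φ e) m := by
    have := Killed.map hφt h3 h4 hO
    rwa [map_sub, map_one] at this
  have hr1 : InRad tr (e - φ e) := fun γ => tr_sub_mul hsym he hφe hE hO hE' hO' γ
  -- the components of non-zero degree belong to the radical
  have hr2 : ∀ r : ℤ, r ≠ 0 → InRad tr (cp 𝒢 r e) := by
    intro r hr
    have h5 := inRad_cp htr hr1 r
    have h9 : cp 𝒢 r (e - φ e) = (1 - (2 : ℚ) ^ r) • cp 𝒢 r e := by
      rw [map_sub, hφ, cp_scale, sub_smul, one_smul]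
    rw [h9] at h5
    have h6 : (1 - (2 : ℚ) ^ r) ≠ 0 := by
      intro h7
      have h8 : (2 : ℚ) ^ r = 1 := by linarith
      exact hr ((zpow_eq_one_iff_right₀ (by norm_num) (by norm_num)).1 h8)
    have h7 := InRad.smul h5 (1 - (2 : ℚ) ^ r)⁻¹
    rwa [smul_smul, inv_mul_cancel₀ h6, one_smul] at h7
  set e0 := cp 𝒢 0 e with he0
  have hr3 : InRad tr (e0 - e) := by
    obtain ⟨T, hT0, hT⟩ := exists_sum_cp (𝒢 := 𝒢) e
    have h5 : e0 - e = cp 𝒢 0 e - ∑ r ∈ T, cp 𝒢 r e := by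
      rw [← hT]
    rw [h5, ← Finset.add_sum_erase _ _ hT0, sub_add_cancel_left]
    exact InRad.neg (InRad.sum _ fun r hr => hr2 r (Finset.mem_erase.1 hr).1)
  have hr4 : InRad tr (e0 * e0 - e0) := by
    have e1 : e0 * e0 - e0 = (e0 - e) * e0 + e * (e0 - e) - (e0 - e) := by
      rw [mul_sub, sub_mul, he]
      abel
    rw [e1]
    exact ((hr3.mul_right _).add (hr3.mul_left hsym _)).sub hr3
  have hnil : ∀ x, InRad tr x → IsNilpotent x := fun x hx => isNilpotent_of_inRad hsym he hE hO hx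
  obtain ⟨p, c, h5, h6⟩ := exists_lift_poly (hnil _ hr4)
  set e' := Polynomial.aeval e0 p with he'
  have hr5 : InRad tr (e' - e) := by
    have e1 : e' - e = (e0 * e0 - e0) * c + (e0 - e) := by
      rw [← h6]
      abel
    rw [e1]
    exact (hr4.mul_right _).add hr3
  refine ⟨e', ?_, h5, exists_conj hsym h5 he hnil hr5⟩
  have h7 : Algebra.adjoin ℚ {e0} ≤ SetLike.GradeZero.subalgebra 𝒢 :=
    Algebra.adjoin_le (by
      rw [Set.singleton_subset_iff]
      exact cp_mem 0 e)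
  exact h7 (Polynomial.aeval_mem_adjoin_singleton ℚ e0)

end Pool.Agent.N174.KN
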