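import Pool.Agent.TH829.Kim.Defs

/-!
# Kimura-finiteness of the noncommutative Chow motive of a variety: definition
-/

open CategoryTheory AlgebraicGeometry

universe u v

namespace Pool.Agent.N174.KN

open Pool.Agent.H914 Pool.Agent.H914.VarClass Pool.Agent.H914.VarClass.Obj Pool.Agent.W492.BB
  Pool.Agent.W550.Corr Pool.Agent.TH133 Pool.Agent.TH829.Prime Pool.Agent.TH829.Kim

variable {k : Type u} [Field k] {𝒱 : VarClass k}

/-- The noncommutative Chow motive `U(perf_dg(X))` is Kimura-finite. Its ring of endomorphisms is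
the ring of all self-correspondences of `X`, of all degrees, under composition; the condition is
that there is an idempotent `e` in this ring such that for some `n ≥ 1` the exterior power `Λ^n` of
the direct factor defined by `e` is zero, and for some `n ≥ 1` the symmetric power `Sym^n` of the
direct factor defined by `1 - e` is zero. -/
def IsNCKimuraFinite (C : TheoryData.{u, v, 0} 𝒱 ℚ) (X : 𝒱.Obj) : Prop :=
  ∃ e : C.A (X.prod X), C.comp e e = e ∧
    (∃ n : ℕ, 1 ≤ n ∧ ∀ (W : 𝒱.Obj) (x y : Fin n → (W ⟶ X)), altPower C e x y = 0) ∧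
    (∃ n : ℕ, 1 ≤ n ∧ ∀ (W : 𝒱.Obj) (x y : Fin n → (W ⟶ X)), symPower C (dg C X - e) x y = 0)

end Pool.Agent.N174.KN
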