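import Pool.Agent.TH829.Kim.Main
import Pool.Agent.N174.KN.Alg
import Pool.Agent.N174.KN.Defs

/-!
# The trace on the ring of the self-correspondences of all degrees
-/

open CategoryTheory AlgebraicGeometry

universe u v w

namespace Pool.Agent.N174.KN

open Pool.Agent.H914 Pool.Agent.H914.VarClass Pool.Agent.H914.VarClass.Obj Pool.Agent.W492.BB
  Pool.Agent.W550.Corr Pool.Agent.TH133 Pool.Agent.TH829.Prime Pool.Agent.TH829.Kim

set_option linter.unusedSectionVars false

variable {k : Type u} [Field k] {𝒱 : VarClass k}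

section chow

variable {C : TheoryData.{u, v, 0} 𝒱 ℚ} [hC : IsChowProj C] {X Y Z W V : 𝒱.Obj}

include hC

/-- Homogeneous classes not of top degree have degree zero. -/
lemma hasDegree_of_ne {i : ℤ} {x : C.A X} (hx : x ∈ C.gr X i) (hi : i ≠ X.dim) :
    HasDegree C x 0 := by
  rcases lt_or_gt_of_ne hi with h | h
  · intro Y
    have h2 := C.push_mem (snd X Y) (C.pull_mem (fst X Y) hx)
    rw [C.gr_neg Y _ (by rw [dim_prod]; push_cast; omega)] at h2
    have h3 := C.push_mem (fst Y X) (C.pull_mem (snd Y X) hx)
    rw [C.gr_neg Y _ (by rw [dim_prod]; push_cast; omega)] at h3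
    rw [zero_smul]
    exact ⟨(Submodule.mem_bot _).1 h2, (Submodule.mem_bot _).1 h3⟩
  · rw [hC.gr_top X i _ hx h]
    exact hasDegree_zero

lemma hom_ind (X : 𝒱.Obj) {p : C.A X → Prop} (h : ∀ r, ∀ a ∈ C.gr X r, p a)
    (hadd : ∀ a b, p a → p b → p (a + b)) (a : C.A X) : p a := by
  have h1 : a ∈ ⨆ i, C.gr X i := by
    rw [(C.isInternal X).submodule_iSup_eq_top]
    trivial
  exact Submodule.iSup_induction (C.gr X) (motive := p) h1 h (h 0 0 (Submodule.zero_mem _)) hadd

/-- Every class has a degree. -/
lemma exists_deg (x : C.A X) : ∃ q, HasDegree C x q := by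
  refine hom_ind X (p := fun x => ∃ q, HasDegree C x q) ?_ ?_ x
  · intro r a ha
    by_cases hr : r = X.dim
    · subst hr
      exact exists_hasDegree ha
    · exact ⟨0, hasDegree_of_ne ha hr⟩
  · rintro a b ⟨q, hq⟩ ⟨r, hr⟩
    exact ⟨q + r, HasDegree.add hq hr⟩

/-! ### The ring of self-correspondences -/

/-- The class of a self-correspondence. -/
noncomputable def cl : Cor C X →ₗ[ℚ] C.A (X.prod X) := LinearMap.id

lemma cl_mul (a b : Cor C X) : cl (a * b) = C.comp (cl b) (cl a) := rfl

lemma cl_one : cl (1 : Cor C X) = dg C X := rfl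

lemma cl_inj {a b : Cor C X} (h : cl a = cl b) : a = b := h

lemma exists_tr' (a : Cor C X) : ∃ q : ℚ, HasDegree C (ev (cl a) (𝟙 X) (𝟙 X)) q := exists_deg _

/-- The trace of a self-correspondence: the degree of its restriction to the diagonal. -/
noncomputable def trC (hne : ∀ X : 𝒱.Obj, (1 : C.A X) ≠ 0) (X : 𝒱.Obj) : Cor C X →ₗ[ℚ] ℚ where
  toFun a := (exists_tr' a).choose
  map_add' a b := by
    apply hasDegree_uniq (hne X) (exists_tr' (a + b)).choose_spec
    have h := HasDegree.add (exists_tr' a).choose_spec (exists_tr' b).choose_spec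
    rw [← ev_add, ← map_add cl] at h
    exact h
  map_smul' r a := by
    apply hasDegree_uniq (hne X) (exists_tr' (r • a)).choose_spec
    have h := HasDegree.smul r (exists_tr' a).choose_spec
    rw [← ev_smul, ← map_smul cl] at h
    exact h

variable {hne : ∀ X : 𝒱.Obj, (1 : C.A X) ≠ 0}

lemma trC_spec (a : Cor C X) : HasDegree C (ev (cl a) (𝟙 X) (𝟙 X)) (trC hne X a) :=
  (exists_tr' a).choose_spec

/-- The trace of a composition as an intersection number. -/
lemma trC_mul (a b : Cor C X) : HasDegree C (cl b * tp C (cl a)) (trC hne X (a * b)) := by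
  obtain ⟨q, hq⟩ := exists_deg (C := C) (X := X.prod X) (cl b * tp C (cl a))
  have h1 := hasDegree_push (fst X X) hq
  have h2 := trC_spec (hne := hne) (a * b)
  rw [cl_mul, ev_comp] at h2
  have e1 : ev (cl b) (fst X X ≫ 𝟙 X) (snd X X) = cl b := by
    rw [Category.comp_id, ev_univ]
  have e2 : ev (cl a) (snd X X) (fst X X ≫ 𝟙 X) = tp C (cl a) := by
    rw [Category.comp_id]
    rfl
  rw [e1, e2] at h2
  rwa [hasDegree_uniq (hne X) h1 h2] at hq

lemma trC_comm (a b : Cor C X) : trC hne X (a * b) = trC hne X (b * a) := by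
  apply hasDegree_uniq (hne X) (trC_mul (hne := hne) a b)
  have h := tp_hasDegree (trC_mul (hne := hne) b a)
  have e : tp C (cl a * tp C (cl b)) = cl b * tp C (cl a) := by
    rw [tp, map_mul, ch_comm C]
    congr 1
    change tp C (tp C (cl b)) = _
    rw [tp_tp]
  rwa [e] at h

/-! ### The grading -/

variable (C X) in
/-- The self-correspondences of degree `r`. -/
noncomputable def gC (r : ℤ) : Submodule ℚ (Cor C X) := C.gr (X.prod X) (X.dim + r)

lemma mem_gC {r : ℤ} {a : Cor C X} : a ∈ gC C X r ↔ cl a ∈ C.gr (X.prod X) (X.dim + r) := Iff.rfl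

variable (C X) in
lemma gC_internal : DirectSum.IsInternal (gC C X) := by
  have h := C.isInternal (X.prod X)
  rw [DirectSum.isInternal_submodule_iff_iSupIndep_and_iSup_eq_top] at h ⊢
  refine ⟨?_, ?_⟩
  · exact h.1.comp (f := fun r : ℤ => (X.dim : ℤ) + r) (add_right_injective _)
  · exact ((Equiv.addLeft (X.dim : ℤ)).iSup_comp (g := C.gr (X.prod X))).trans h.2

noncomputable instance : GradedAlgebra (gC C X) where
  one_mem := by
    rw [mem_gC, add_zero]
    exact dg_mem C X
  mul_mem := by
    intro i j a b ha hb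
    have h := comp_mem C (X := X) (Y := X) (Z := X) (mem_gC.1 hb) (mem_gC.1 ha)
    rw [mem_gC, cl_mul, add_comm i j]
    exact h
  toDecomposition := (gC_internal C X).chooseDecomposition

lemma trC_of_ne (r : ℤ) (hr : r ≠ 0) (a : Cor C X) (ha : a ∈ gC C X r) : trC hne X a = 0 := by
  have h1 := hasDegree_of_ne (ev_mem (mem_gC.1 ha) (𝟙 X) (𝟙 X)) (by omega)
  exact hasDegree_uniq (hne X) (trC_spec (hne := hne) a) h1

/-! ### The contractions -/

/-- The family of the determinants. -/
noncomputable def grC (s : Bool) {n : ℕ} (a : Fin n → Cor C X) : Fam C X n :=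
  fun W x y => gr (W := W) s (fun i => cl (a i)) x y

lemma conL_grC (s : Bool) {n : ℕ} (a : Fin (n + 1) → Cor C X) :
    conL C X n (grC s a) = trC hne X (a 0) • grC s (fun i => a i.succ) +
      eta s • ∑ i, grC s (Function.update (fun i => a i.succ) i (a 0 * a i.succ)) := by
  funext W x y
  have h := push_gr (W := W) s (fun i => cl (a i)) x y (trC_spec (hne := hne) (a 0))
  have h1 : ∀ i : Fin n, (fun j => cl (Function.update (fun i => a i.succ) i
      (a 0 * a i.succ) j)) = Function.update (fun i => cl (a i.succ)) i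
        (C.comp (cl (a i.succ)) (cl (a 0))) := by
    intro i
    funext j
    by_cases hj : j = i
    · subst hj
      rw [Function.update_self, Function.update_self, cl_mul]
    · rw [Function.update_of_ne hj, Function.update_of_ne hj]
  rw [Pi.add_apply, Pi.add_apply, Pi.add_apply, Pi.smul_apply, Pi.smul_apply, Pi.smul_apply,
    Pi.smul_apply, Pi.smul_apply, Pi.smul_apply, Finset.sum_apply, Finset.sum_apply,
    Finset.sum_apply]
  have h2 : ∀ i : Fin n, grC s (Function.update (fun i => a i.succ) i (a 0 * a i.succ)) W x y =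
      gr s (Function.update (fun i => cl (a i.succ)) i
        (C.comp (cl (a i.succ)) (cl (a 0)))) x y := by
    intro i
    rw [← h1]
    rfl
  rw [Finset.sum_congr rfl (fun i _ => h2 i)]
  exact h

/-- The family of the values of a correspondence. -/
noncomputable def evC : Cor C X →ₗ[ℚ] Fam C X 1 where
  toFun a := fun _ x y => ev (cl a) (x 0) (y 0)
  map_add' a b := by
    funext W x y
    exact map_add _ _ _
  map_smul' q a := by
    funext W x y
    exact map_smul _ _ _

/-- The contraction of all but one pair of points. -/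
lemma iterL_grC (s : Bool) (n : ℕ) (a : Fin (n + 1) → Cor C X) :
    iterL C X n (grC s a) = evC (K (trC hne X) (eta s) n a) := by
  induction n with
  | zero =>
    funext W x y
    exact gr_one s _ x y
  | succ n ih =>
    rw [iterL, LinearMap.comp_apply, conL_grC (hne := hne), map_add, map_smul, map_smul, map_sum,
      K_succ, map_add, map_smul, map_smul, map_sum, ih]
    congr 2
    exact Finset.sum_congr rfl (fun i _ => ih _)

/-- The contraction of all pairs of points. -/
lemma iterL0_grC (s : Bool) (n : ℕ) (a : Fin n → Cor C X) :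
    iterL0 C X n (grC s a) = F (trC hne X) (eta s) n a • (fun _ _ _ => 1 : Fam C X 0) := by
  induction n with
  | zero =>
    rw [F, one_smul]
    funext W x y
    exact gr_zero s _ x y
  | succ n ih =>
    rw [iterL0, LinearMap.comp_apply, conL_grC (hne := hne), map_add, map_smul, map_smul, map_sum,
      F_succ, ih, Finset.sum_congr rfl (fun i _ => ih _), add_smul, mul_smul, mul_smul,
      Finset.sum_smul]

/-! ### Vanishing of the generalized determinants -/

/-- The generalized determinants of `f` with `n` factors vanish. -/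
def DieC (s : Bool) (f : Cor C X) (n : ℕ) : Prop :=
  ∀ (W : 𝒱.Obj) (x y : Fin n → (W ⟶ X)), gd s (fun _ _ => cl f) x y = 0

lemma rows_zero {s : Bool} {n : ℕ} {p : Fin n → Fin n → C.A (X.prod X)}
    (h : ∀ (W : 𝒱.Obj) (x y : Fin n → (W ⟶ X)), gd s p x y = 0) (i : Fin n)
    (a : C.A (X.prod X)) (x y : Fin n → (W ⟶ X)) :
    gd s (Function.update p i (fun j => C.comp a (p i j))) x y = 0 := by
  rw [gd_row, h, mul_zero, map_zero]

lemma cols_zero {s : Bool} {n : ℕ} {p : Fin n → Fin n → C.A (X.prod X)}
    (h : ∀ (W : 𝒱.Obj) (x y : Fin n → (W ⟶ X)), gd s p x y = 0) (j : Fin n)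
    (b : C.A (X.prod X)) (x y : Fin n → (W ⟶ X)) :
    gd s (fun i l => if l = j then C.comp (p i l) b else p i l) x y = 0 := by
  rw [gd_col, h, mul_zero, map_zero]

lemma DieC.rows {s : Bool} {f : Cor C X} {n : ℕ} (h : DieC s f n) (a : Fin n → Cor C X)
    (W : 𝒱.Obj) (x y : Fin n → (W ⟶ X)) :
    gd s (fun i _ => cl (f * a i)) x y = 0 := by
  have key : ∀ T : Finset (Fin n), ∀ (W : 𝒱.Obj) (x y : Fin n → (W ⟶ X)),
      gd s (fun i (_ : Fin n) => if i ∈ T then cl (f * a i) else cl f) x y = 0 := by
    intro T
    induction T using Finset.induction_on with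
    | empty => exact fun W x y => by simpa using h W x y
    | insert i T hi ih =>
      intro W x y
      have h1 := rows_zero ih i (cl (a i)) x y
      convert h1 using 2
      funext j l
      by_cases hj : j = i
      · subst hj
        rw [Function.update_self, if_pos (Finset.mem_insert_self _ _), if_neg hi, cl_mul]
      · rw [Function.update_of_ne hj]
        by_cases hjT : j ∈ T
        · rw [if_pos hjT, if_pos (Finset.mem_insert_of_mem hjT)]
        · rw [if_neg hjT, if_neg (by simp [hj, hjT])]
  have := key Finset.univ W x y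
  simpa using this

lemma DieC.cols {s : Bool} {f : Cor C X} {n : ℕ} (h : DieC s f n) (b : Cor C X)
    (W : 𝒱.Obj) (x y : Fin n → (W ⟶ X)) :
    gd s (fun _ _ => cl (b * f)) x y = 0 := by
  have key : ∀ T : Finset (Fin n), ∀ (W : 𝒱.Obj) (x y : Fin n → (W ⟶ X)),
      gd s (fun _ (j : Fin n) => if j ∈ T then cl (b * f) else cl f) x y = 0 := by
    intro T
    induction T using Finset.induction_on with
    | empty => exact fun W x y => by simpa using h W x y
    | insert l T hl ih =>
      intro W x y
      have h1 := cols_zero ih l (cl b) x y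
      convert h1 using 2
      funext i j
      by_cases hj : j = l
      · subst hj
        rw [if_pos (Finset.mem_insert_self _ _), if_pos rfl, if_neg hl, cl_mul]
      · rw [if_neg hj]
        by_cases hjT : j ∈ T
        · rw [if_pos hjT, if_pos (Finset.mem_insert_of_mem hjT)]
        · rw [if_neg hjT, if_neg (by simp [hj, hjT])]
  have := key Finset.univ W x y
  simpa using this

/-- Conjugate idempotents die together. -/
lemma DieC.conj {s : Bool} {f : Cor C X} {n : ℕ} (h : DieC s f n) (u v : Cor C X) :
    DieC s (u * f * v) n := by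
  have h1 : DieC s (f * v) n := fun W x y => h.rows (fun _ => v) W x y
  intro W x y
  have h2 := h1.cols u W x y
  rwa [← mul_assoc] at h2

/-- The vanishing of the generalized determinants implies the algebraic condition. -/
lemma DieC.killed {s : Bool} {f : Cor C X} {n : ℕ} (h : DieC s f (n + 1)) :
    Killed (trC hne X) (eta s) f n := by
  have key : ∀ a : Fin (n + 1) → Cor C X, (∀ i, f * a i = a i) → grC s a = 0 := by
    intro a ha
    funext W x y
    have h1 := h.rows a W x y
    simp only [ha] at h1
    exact h1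
  constructor
  · intro a ha
    have h2 := congrArg (iterL C X n) (key a ha)
    rw [iterL_grC (hne := hne), map_zero] at h2
    have h3 := congrFun (congrFun (congrFun h2 (X.prod X)) (fun _ => fst X X)) (fun _ => snd X X)
    have h4 : evC (K (trC hne X) (eta s) n a) (X.prod X) (fun _ => fst X X) (fun _ => snd X X) =
        cl (K (trC hne X) (eta s) n a) := ev_univ _
    rw [h4] at h3
    exact cl_inj h3
  · intro a ha
    by_contra hF
    have h2 := congrArg (iterL0 C X (n + 1)) (key a ha)
    rw [iterL0_grC (hne := hne), map_zero] at h2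
    have h3 := congrFun (congrFun (congrFun h2 X) Fin.elim0) Fin.elim0
    have h4 : F (trC hne X) (eta s) (n + 1) a • (1 : C.A X) = 0 := h3
    exact hne X ((smul_eq_zero.1 h4).resolve_left hF)

/-- **The noncommutative Chow motive of a variety is Kimura-finite if and only if its Chow motive
is.** -/
theorem isNCKimuraFinite_iff (hne : ∀ X : 𝒱.Obj, (1 : C.A X) ≠ 0) (X : 𝒱.Obj) :
    IsNCKimuraFinite C X ↔ IsKimuraFinite C (ratFam C) X := by
  constructor
  · rintro ⟨p, hp, ⟨n, hn, h2⟩, ⟨m, hm, h3⟩⟩
    obtain ⟨n, rfl⟩ := Nat.exists_eq_add_of_le' hn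
    obtain ⟨m, rfl⟩ := Nat.exists_eq_add_of_le' hm
    set e : Cor C X := p with he
    have hee : e * e = e := hp
    have hE : DieC true e (n + 1) := fun W x y => by
      have h4 := h2 W x y
      rwa [altPower_eq] at h4
    have hO : DieC false (1 - e) (m + 1) := fun W x y => by
      have h4 := h3 W x y
      rwa [symPower_eq] at h4
    obtain ⟨e', he', hee', u, v, huv, -, hconj⟩ := exists_degree_zero (𝒢 := gC C X)
      (tr := trC hne X) (trC_comm (hne := hne)) (trC_of_ne (hne := hne)) hee
      (hE.killed (hne := hne)) (hO.killed (hne := hne))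
    have h4 : cl e' ∈ C.gr (X.prod X) X.dim := by
      have := mem_gC.1 he'
      rwa [add_zero] at this
    have hE' : DieC true e' (n + 1) := by
      rw [hconj]
      exact hE.conj u v
    have hO' : DieC false (1 - e') (m + 1) := by
      have e1 : 1 - e' = u * (1 - e) * v := by
        rw [hconj, mul_sub, sub_mul, mul_one, huv]
      rw [e1]
      exact hO.conj u v
    refine ⟨cl e', h4, ?_, ⟨n + 1, by omega, fun W x y => ?_⟩, ⟨m + 1, by omega, fun W x y => ?_⟩⟩
    · have h5 : C.comp (cl e') (cl e') = cl e' := hee'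
      rw [h5, sub_self]
      exact Submodule.zero_mem _
    · rw [altPower_eq, hE' W x y]
      exact Submodule.zero_mem _
    · rw [symPower_eq]
      have h5 := hO' W x y
      have h6 : gd false (fun _ _ => dg C X - cl e') x y = 0 := h5
      rw [h6]
      exact Submodule.zero_mem _
  · rintro ⟨p, hp, h1, ⟨n, hn, h2⟩, ⟨m, hm, h3⟩⟩
    exact ⟨p, sub_eq_zero.1 ((Submodule.mem_bot _).1 h1),
      ⟨n, hn, fun W x y => (Submodule.mem_bot _).1 (h2 W x y)⟩,
      ⟨m, hm, fun W x y => (Submodule.mem_bot _).1 (h3 W x y)⟩⟩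

end chow

end Pool.Agent.N174.KN
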